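import Pool.Agent.Helper17.IAN.StN

/-!
# Project IA, part N, module PJA (two used triples with the same third entry)
-/

set_option autoImplicit false

namespace Pool.Agent.Helper37.IAN

open Finset Pool.Agent.Helper93.IA Pool.Agent.Helper17.IAN

private lemma sum_wt {α β γ : Type} [Fintype γ] (x : α → β → γ → ℝ) (e : α × β) :
    ∑ u : Option γ, wt x e u = 1 := by
  rw [Fintype.sum_option]
  simp [wt]

private lemma sum_eq {α β γ : Type} [Fintype γ] [DecidableEq γ] (x : α → β → γ → ℝ) (e : α × β)
    (c : γ) : ∑ u : Option γ, wt x e u * (if u = some c then 1 else 0) = x e.1 e.2 c := by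
  rw [Finset.sum_eq_single (some c)]
  · simp [wt]
  · intro u _ hu
    rw [if_neg hu, mul_zero]
  · intro h
    exact absurd (Finset.mem_univ _) h

private lemma sum_ne {α β γ : Type} [Fintype γ] [DecidableEq γ] (x : α → β → γ → ℝ) (e : α × β)
    (c : γ) : ∑ u : Option γ, wt x e u * (if u ≠ some c then 1 else 0) = 1 - x e.1 e.2 c := by
  have h : ∀ u : Option γ, wt x e u * (if u ≠ some c then (1 : ℝ) else 0)
      = wt x e u - wt x e u * (if u = some c then 1 else 0) := by
    intro u
    by_cases hu : u = some c
    · simp [hu]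
    · simp [hu]
  rw [Finset.sum_congr rfl (fun u _ => h u), Finset.sum_sub_distrib, sum_wt, sum_eq]

/-- splitting a product over two distinct indices -/
private lemma prod_two {ι : Type} [Fintype ι] [DecidableEq ι] (i j : ι) (hij : i ≠ j) (f : ι → ℝ) :
    ∏ k, f k = f i * (f j * ∏ k ∈ (univ.erase i).erase j, f k) := by
  rw [Finset.mul_prod_erase (univ.erase i) f (by simp [Ne.symm hij]),
    Finset.mul_prod_erase univ f (Finset.mem_univ i)]

theorem hPJA : StPJA := by
  intro hCYL hPRD α β γ _ _ _ _ _ _ x a a' b b' c haa hbb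
  classical
  set G : α × β → Option γ → Prop := fun e u =>
    if e = (a, b') ∨ e = (a', b) then u = some c
    else if e.1 = a ∨ e.1 = a' ∨ e.2 = b ∨ e.2 = b' then u ≠ some c else True with hG
  have hset : (fun σ : α × β → Option γ => used σ a b' c ∧ used σ a' b c)
      = fun σ => ∀ e, G e (σ e) := by
    funext σ
    apply propext
    constructor
    · rintro ⟨⟨h1, h2, h3⟩, h4, h5, h6⟩ ⟨p, q⟩
      simp only [hG]
      split_ifs with hA hB
      · rcases hA with hA | hA
        · rw [hA]; exact h1
        · rw [hA]; exact h4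
      · push Not at hA
        rcases hB with hB | hB | hB | hB
        · subst hB
          exact h2 q (fun h => hA.1 (by rw [h]))
        · subst hB
          exact h5 q (fun h => hA.2 (by rw [h]))
        · subst hB
          exact h6 p (fun h => hA.2 (by rw [h]))
        · subst hB
          exact h3 p (fun h => hA.1 (by rw [h]))
    · intro h
      have g1 : σ (a, b') = some c := by
        have := h (a, b')
        simpa only [hG, true_or, if_true] using this
      have g2 : σ (a', b) = some c := by
        have := h (a', b)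
        simpa only [hG, or_true, if_true] using this
      have g3 : ∀ p q, (p, q) ≠ (a, b') → (p, q) ≠ (a', b) → (p = a ∨ p = a' ∨ q = b ∨ q = b') →
          σ (p, q) ≠ some c := by
        intro p q n1 n2 hor
        have := h (p, q)
        have hn : ¬ ((p, q) = (a, b') ∨ (p, q) = (a', b)) := by
          push Not
          exact ⟨n1, n2⟩
        simp only [hG] at this
        rw [if_neg hn, if_pos hor] at this
        exact this
      refine ⟨⟨g1, ?_, ?_⟩, g2, ?_, ?_⟩
      · intro q hq
        exact g3 a q (fun h => hq (congrArg Prod.snd h)) (fun h => haa (congrArg Prod.fst h))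
          (Or.inl rfl)
      · intro p hp
        exact g3 p b' (fun h => hp (congrArg Prod.fst h))
          (fun h => hbb (congrArg Prod.snd h).symm) (Or.inr (Or.inr (Or.inr rfl)))
      · intro q hq
        exact g3 a' q (fun h => haa (congrArg Prod.fst h).symm) (fun h => hq (congrArg Prod.snd h))
          (Or.inr (Or.inl rfl))
      · intro p hp
        exact g3 p b (fun h => hbb (congrArg Prod.snd h)) (fun h => hp (congrArg Prod.fst h))
          (Or.inr (Or.inr (Or.inl rfl)))
  rw [hset, hCYL hPRD α β γ x G]
  set F : α × β → ℝ := fun e => ∑ u : Option γ, wt x e u * (if G e u then 1 else 0) with hF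
  -- the values of F
  have F1 : F (a, b') = x a b' c := by
    have hg : ∀ u, G (a, b') u ↔ u = some c := by
      intro u
      simp only [hG, true_or, if_true]
    simp only [hF]
    simp only [hg]
    exact sum_eq x (a, b') c
  have F2 : F (a', b) = x a' b c := by
    have hg : ∀ u, G (a', b) u ↔ u = some c := by
      intro u
      simp only [hG, or_true, if_true]
    simp only [hF]
    simp only [hg]
    exact sum_eq x (a', b) c
  have F3 : ∀ p q, (p, q) ≠ (a, b') → (p, q) ≠ (a', b) → (p = a ∨ p = a' ∨ q = b ∨ q = b') →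
      F (p, q) = 1 - x p q c := by
    intro p q n1 n2 hor
    have hn : ¬ ((p, q) = (a, b') ∨ (p, q) = (a', b)) := by
      push Not
      exact ⟨n1, n2⟩
    have hg : ∀ u, G (p, q) u ↔ u ≠ some c := by
      intro u
      simp only [hG]
      rw [if_neg hn, if_pos hor]
    simp only [hF]
    simp only [hg]
    exact sum_ne x (p, q) c
  have F4 : ∀ p q, p ≠ a → p ≠ a' → q ≠ b → q ≠ b' → F (p, q) = 1 := by
    intro p q n1 n2 n3 n4
    have hn : ¬ ((p, q) = (a, b') ∨ (p, q) = (a', b)) := by
      push Not
      exact ⟨fun h => n1 (congrArg Prod.fst h), fun h => n2 (congrArg Prod.fst h)⟩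
    have hn2 : ¬ (p = a ∨ p = a' ∨ q = b ∨ q = b') := by
      push Not
      exact ⟨n1, n2, n3, n4⟩
    have hg : ∀ u, G (p, q) u := by
      intro u
      simp only [hG]
      rw [if_neg hn, if_neg hn2]
      trivial
    simp only [hF]
    simp only [hg, if_true, mul_one]
    exact sum_wt x (p, q)
  have hFprod : ∏ e, F e = ∏ p, ∏ q, F (p, q) := Fintype.prod_prod_type F
  have hrowa : ∏ q, F (a, q)
      = (1 - x a b c) * (x a b' c * ∏ b'' ∈ (univ.erase b).erase b', (1 - x a b'' c)) := by
    rw [prod_two b b' hbb, F1, F3 a b (fun h => hbb (congrArg Prod.snd h))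
      (fun h => haa (congrArg Prod.fst h)) (Or.inl rfl)]
    congr 2
    refine Finset.prod_congr rfl (fun q hq => ?_)
    rw [Finset.mem_erase, Finset.mem_erase] at hq
    exact F3 a q (fun h => hq.1 (congrArg Prod.snd h)) (fun h => haa (congrArg Prod.fst h))
      (Or.inl rfl)
  have hrowa' : ∏ q, F (a', q)
      = x a' b c * ((1 - x a' b' c) * ∏ b'' ∈ (univ.erase b).erase b', (1 - x a' b'' c)) := by
    rw [prod_two b b' hbb, F2, F3 a' b' (fun h => haa (congrArg Prod.fst h).symm)
      (fun h => hbb (congrArg Prod.snd h).symm) (Or.inr (Or.inl rfl))]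
    congr 2
    refine Finset.prod_congr rfl (fun q hq => ?_)
    rw [Finset.mem_erase, Finset.mem_erase] at hq
    exact F3 a' q (fun h => haa (congrArg Prod.fst h).symm) (fun h => hq.2.1 (congrArg Prod.snd h))
      (Or.inr (Or.inl rfl))
  have hrow : ∀ p, p ≠ a → p ≠ a' → ∏ q, F (p, q) = (1 - x p b c) * (1 - x p b' c) := by
    intro p h1 h2
    rw [prod_two b b' hbb,
      F3 p b (fun h => h1 (congrArg Prod.fst h)) (fun h => h2 (congrArg Prod.fst h))
        (Or.inr (Or.inr (Or.inl rfl))),
      F3 p b' (fun h => h1 (congrArg Prod.fst h)) (fun h => h2 (congrArg Prod.fst h))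
        (Or.inr (Or.inr (Or.inr rfl)))]
    have : ∏ q ∈ (univ.erase b).erase b', F (p, q) = 1 := by
      refine Finset.prod_eq_one (fun q hq => ?_)
      rw [Finset.mem_erase, Finset.mem_erase] at hq
      exact F4 p q h1 h2 hq.2.1 hq.1
    rw [this, mul_one]
  have hrest : ∏ p ∈ (univ.erase a).erase a', ∏ q, F (p, q)
      = (∏ a'' ∈ (univ.erase a).erase a', (1 - x a'' b c))
        * ∏ a'' ∈ (univ.erase a).erase a', (1 - x a'' b' c) := by
    rw [← Finset.prod_mul_distrib]
    refine Finset.prod_congr rfl (fun p hp => ?_)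
    rw [Finset.mem_erase, Finset.mem_erase] at hp
    exact hrow p hp.2.1 hp.1
  have hfin : ∏ e, F e = (∏ q, F (a, q)) * ((∏ q, F (a', q))
      * ∏ p ∈ (univ.erase a).erase a', ∏ q, F (p, q)) := by
    rw [hFprod, prod_two a a' haa (fun p => ∏ q, F (p, q))]
  rw [hfin, hrowa, hrowa', hrest]
  ring

end Pool.Agent.Helper37.IAN
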